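import Pool.Agent.helper40.FI3.SpecLA3

/-!
# Project fi3 (MP_baa4d7_al), row LCA3

The bound for the number of `χ` over `l₀`.
-/

set_option autoImplicit false

namespace Pool.Agent.FI3

open Finset
open Pool.Agent.GR Pool.Agent.FI

theorem LCA3 (hLKM3 : LKM3_stmt) (hLRP3 : LRP3_stmt) (hLFI3 : LFI3_stmt) : LCA3_stmt := by
  classical
  intro p D _ _ _ X _ Z Y I g l₀ hG
  obtain ⟨N, hN⟩ := hLRP3 p D X Z Y I g l₀ hG
  have hex : ∀ (l : D →* ℂˣ) (χ : X), ∃ a : ℤ, ∀ m ∈ N, l ∈ ov Y m →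
      ∑ u, g χ u * (lv l u⁻¹ - lv m u⁻¹) = (Nat.card D : ℂ) * (a : ℂ) := by
    intro l χ
    by_cases h : ∃ m ∈ N, l ∈ ov Y m
    · obtain ⟨m, hm, hl⟩ := h
      obtain ⟨a, ha⟩ := hG.gi χ l m (fun z hz => mem_ov.1 hl z hz)
      refine ⟨a, fun m' hm' hl' => ?_⟩
      have h1 : m' = m := hN.dis m' hm' m hm
        (fun y hy => by rw [← mem_ov.1 hl' y hy, mem_ov.1 hl y hy])
      rw [h1]
      exact ha
    · exact ⟨0, fun m hm hl => absurd ⟨m, hm, hl⟩ h⟩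
  choose A' hA' using hex
  let A : X → (D →* ℂˣ) → ℤ := fun χ l => A' l χ
  have hA : ∀ m ∈ N, LAi Y m g A := fun m hm χ l hl => hA' l χ m hm hl
  have hcov : lX Z l₀ g ⊆ N.biUnion (fun m => lK Y m A (lX Z l₀ g)) := by
    intro χ hχ
    by_contra hne
    rw [Finset.mem_biUnion] at hne
    push Not at hne
    obtain ⟨u, hu, hgu⟩ := hG.gn χ
    apply hgu
    rw [hLFI3 D X Z Y I g l₀ N A hG.zy hN hA χ hχ u hu]
    refine Finset.sum_eq_zero fun m hm => Finset.sum_eq_zero fun l hl => ?_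
    have h0 : A χ l = 0 := by
      by_contra h
      exact hne m hm (mem_lK.2 ⟨hχ, l, hl, h⟩)
    rw [h0, Int.cast_zero, zero_mul]
  have h1 : (lX Z l₀ g).card ≤ ∑ m ∈ N, (lK Y m A (lX Z l₀ g)).card :=
    (Finset.card_le_card hcov).trans Finset.card_biUnion_le
  have h2 : ∀ m ∈ N, Nat.card I * (lK Y m A (lX Z l₀ g)).card ≤ (Y.index - 1) + Nat.card I ^ 2 := by
    intro m hm
    have h3 := (hLKM3 p D X Z Y I g m A hG (hN.fx m hm) (hA m hm)).1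
    rwa [lX_congr (hN.oz m hm)] at h3
  calc Nat.card I * (lX Z l₀ g).card ≤ Nat.card I * ∑ m ∈ N, (lK Y m A (lX Z l₀ g)).card :=
        Nat.mul_le_mul_left _ h1
    _ = ∑ m ∈ N, Nat.card I * (lK Y m A (lX Z l₀ g)).card := Finset.mul_sum _ _ _
    _ ≤ ∑ _m ∈ N, ((Y.index - 1) + Nat.card I ^ 2) := Finset.sum_le_sum h2
    _ = Z.relIndex Y * ((Y.index - 1) + Nat.card I ^ 2) := by
        rw [Finset.sum_const, smul_eq_mul, hN.crd]

end Pool.Agent.FI3
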